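import Mathlib

/-!
# A locally nilpotent Lie algebra `A` with an element `a` such that `R_a ∉ L(A*)`
-/

set_option autoImplicit false

open Polynomial

namespace Pool.Agent.Results.MP_2c0ed3_al.ShiftExample

section Definitions
variable (F : Type) [Field F] (A : Type) [LieRing A] [LieAlgebra F A]

/-- A Lie algebra is Engel if for all `x`, `y` some `[…[[y,x],x],…,x]` with `n ≥ 1` brackets
vanishes. -/
def IsEngel : Prop := ∀ x y : A, ∃ n : ℕ, 1 ≤ n ∧ (fun z : A => ⁅z, x⁆)^[n] y = 0

/-- Right multiplication `R_a : x ↦ [x,a]`. -/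
def R (a : A) : Module.End F A where
  toFun x := ⁅x, a⁆
  map_add' x y := add_lie x y a
  map_smul' c x := smul_lie c x a

/-- The multiplication algebra `A*`: the associative subalgebra, without adjoined identity, of
`End_F(A)` generated by all `R_a`. -/
def multAlg : NonUnitalSubalgebra F (Module.End F A) :=
  NonUnitalAlgebra.adjoin F (Set.range (R F A))

/-- An ideal of a Lie algebra is locally nilpotent if each of its finitely generated subalgebras
is nilpotent. -/
def LieLocNilp (I : LieIdeal F A) : Prop :=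
  ∀ s : Finset A, (∀ x ∈ s, x ∈ I) → LieRing.IsNilpotent (LieSubalgebra.lieSpan F A (s : Set A))

/-- The locally nilpotent radical `L(A)` of a Lie algebra: the sum of all locally nilpotent
ideals. -/
noncomputable def lieRadical : LieIdeal F A := sSup {I : LieIdeal F A | LieLocNilp F A I}

end Definitions

section Definitions2
variable (F : Type) [Field F] (E : Type) [Ring E] [Algebra F E]

/-- `I` is a two-sided ideal of the (possibly non-unital) subalgebra `B` of `E`. -/
def IsIdealOf (B : NonUnitalSubalgebra F E) (I : Submodule F E) : Prop :=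
  (∀ x ∈ I, x ∈ B) ∧ ∀ b ∈ B, ∀ x ∈ I, b * x ∈ I ∧ x * b ∈ I

/-- An ideal `I` of an associative algebra is locally nilpotent if each of its finitely generated
subalgebras is nilpotent: for every finite subset `s` of `I` there is `n ≥ 1` such that every
product of `n` elements of the subalgebra generated by `s` is zero. -/
def AssocLocNilp (I : Submodule F E) : Prop :=
  ∀ s : Finset E, (∀ x ∈ s, x ∈ I) → ∃ n : ℕ, 1 ≤ n ∧ ∀ l : List E, l.length = n →
    (∀ x ∈ l, x ∈ NonUnitalAlgebra.adjoin F (s : Set E)) → l.prod = 0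

/-- The locally nilpotent radical `L(B)` of an associative algebra `B` (a subalgebra of `E`): the
sum of all locally nilpotent two-sided ideals of `B`. -/
def assocRadical (B : NonUnitalSubalgebra F E) : Submodule F E :=
  sSup {I : Submodule F E | IsIdealOf F E B I ∧ AssocLocNilp F E I}

end Definitions2

/-! ### The radical of an associative algebra consists of nilpotent elements -/
section Nil
variable {F : Type} [Field F] {E : Type} [Ring E] [Algebra F E]

lemma nil_of_locNilp (I : Submodule F E) (hI : AssocLocNilp F E I) (x : E) (hx : x ∈ I) :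
    IsNilpotent x := by
  obtain ⟨n, hn, h⟩ := hI {x} (by
    intro y hy
    rw [Finset.mem_singleton] at hy
    rwa [hy])
  refine ⟨n, ?_⟩
  have := h (List.replicate n x) (List.length_replicate) (by
    intro y hy
    rw [List.eq_of_mem_replicate hy]
    apply NonUnitalAlgebra.subset_adjoin
    simp)
  rwa [List.prod_replicate] at this

lemma pow_mem_of (B : NonUnitalSubalgebra F E) (x : E) (hx : x ∈ B) (k : ℕ) : x ^ (k + 1) ∈ B := by
  induction k with
  | zero => simpa using hx
  | succ k ih => rw [pow_succ]; exact B.mul_mem ih hx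

lemma sup_nil (B : NonUnitalSubalgebra F E) (I J : Submodule F E) (hI : IsIdealOf F E B I)
    (hJ : IsIdealOf F E B J) (hIn : ∀ x ∈ I, IsNilpotent x) (hJn : ∀ x ∈ J, IsNilpotent x) :
    IsIdealOf F E B (I ⊔ J) ∧ ∀ x ∈ I ⊔ J, IsNilpotent x := by
  refine ⟨⟨?_, ?_⟩, ?_⟩
  · intro z hz
    obtain ⟨x, hx, y, hy, rfl⟩ := Submodule.mem_sup.1 hz
    exact B.add_mem (hI.1 x hx) (hJ.1 y hy)
  · intro b hb z hz
    obtain ⟨x, hx, y, hy, rfl⟩ := Submodule.mem_sup.1 hz
    rw [mul_add, add_mul]
    exact ⟨Submodule.add_mem_sup (hI.2 b hb x hx).1 (hJ.2 b hb y hy).1,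
      Submodule.add_mem_sup (hI.2 b hb x hx).2 (hJ.2 b hb y hy).2⟩
  · intro z hz
    obtain ⟨x, hx, y, hy, rfl⟩ := Submodule.mem_sup.1 hz
    have hxB := hI.1 x hx
    have hyB := hJ.1 y hy
    have key : ∀ k : ℕ, (x + y) ^ (k + 1) - x ^ (k + 1) ∈ J := by
      intro k
      induction k with
      | zero => simpa using hy
      | succ k ih =>
        have e : (x + y) ^ (k + 1 + 1) - x ^ (k + 1 + 1) =
            (x + y) * ((x + y) ^ (k + 1) - x ^ (k + 1)) + y * x ^ (k + 1) := by
          rw [pow_succ' (x + y), pow_succ' x (k + 1)]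
          noncomm_ring
        rw [e]
        exact J.add_mem (hJ.2 _ (B.add_mem hxB hyB) _ ih).1 (hJ.2 _ (pow_mem_of B x hxB k) _ hy).2
    obtain ⟨n, hn⟩ := hIn x hx
    have h1 := key n
    rw [pow_succ x n, hn, zero_mul, sub_zero] at h1
    obtain ⟨m, hm⟩ := hJn _ h1
    exact ⟨(n + 1) * m, by rw [pow_mul]; exact hm⟩

lemma radical_nil (B : NonUnitalSubalgebra F E) (x : E) (hx : x ∈ assocRadical F E B) :
    IsNilpotent x := by
  classical
  rw [assocRadical, Submodule.mem_sSup_iff_exists_finset] at hx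
  obtain ⟨s, hs, hx⟩ := hx
  have key : ∀ s : Finset (Submodule F E),
      (∀ I ∈ s, IsIdealOf F E B I ∧ AssocLocNilp F E I) →
      IsIdealOf F E B (⨆ i ∈ s, i) ∧ ∀ x ∈ (⨆ i ∈ s, i : Submodule F E), IsNilpotent x := by
    intro s
    induction s using Finset.induction_on with
    | empty =>
      intro _
      simp only [Finset.notMem_empty, iSup_false, iSup_bot, Submodule.mem_bot]
      refine ⟨⟨?_, ?_⟩, ?_⟩
      · intro x hx
        rw [Submodule.mem_bot] at hx
        rw [hx]; exact B.zero_mem
      · intro b _ x hx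
        rw [Submodule.mem_bot] at hx
        rw [hx]; simp
      · rintro x rfl
        exact IsNilpotent.zero
    | insert I s _ ih =>
      intro h
      have h1 := ih (fun J hJ => h J (Finset.mem_insert_of_mem hJ))
      have h2 := h I (Finset.mem_insert_self _ _)
      rw [Finset.iSup_insert]
      exact sup_nil B I _ h2.1 h1.1 (nil_of_locNilp I h2.2) h1.2
  exact (key s (fun I hI => hs hI)).2 x hx

end Nil

/-! ### The example -/
section Example
variable (F : Type) [Field F]

/-- The underlying space `F[X] × F`; `(p, c)` stands for `p + c a`. -/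
def Alg : Type := F[X] × F

noncomputable instance : AddCommGroup (Alg F) := inferInstanceAs (AddCommGroup (F[X] × F))
noncomputable instance : Module F (Alg F) := inferInstanceAs (Module F (F[X] × F))

/-- the shift `X^(n+1) ↦ X^n`, `1 ↦ 0` -/
noncomputable def S : F[X] →ₗ[F] F[X] where
  toFun := divX
  map_add' _ _ := divX_add
  map_smul' c p := by
    ext n
    simp [coeff_divX]

variable {F}

lemma coeff_S (p : F[X]) (n : ℕ) : (S F p).coeff n = p.coeff (n + 1) := coeff_divX

noncomputable instance : LieRing (Alg F) where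
  bracket x y := (y.2 • S F x.1 - x.2 • S F y.1, 0)
  add_lie x y z := by
    refine Prod.ext ?_ ?_
    · show z.2 • S F (x.1 + y.1) - (x.2 + y.2) • S F z.1 =
        (z.2 • S F x.1 - x.2 • S F z.1) + (z.2 • S F y.1 - y.2 • S F z.1)
      rw [map_add]
      module
    · show (0 : F) = 0 + 0
      rw [add_zero]
  lie_add x y z := by
    refine Prod.ext ?_ ?_
    · show (y.2 + z.2) • S F x.1 - x.2 • S F (y.1 + z.1) =
        (y.2 • S F x.1 - x.2 • S F y.1) + (z.2 • S F x.1 - x.2 • S F z.1)
      rw [map_add]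
      module
    · show (0 : F) = 0 + 0
      rw [add_zero]
  lie_self x := by
    refine Prod.ext ?_ ?_
    · show x.2 • S F x.1 - x.2 • S F x.1 = 0
      rw [sub_self]
    · rfl
  leibniz_lie x y z := by
    refine Prod.ext ?_ ?_
    · show (0 : F) • S F x.1 - x.2 • S F (z.2 • S F y.1 - y.2 • S F z.1) =
        (z.2 • S F (y.2 • S F x.1 - x.2 • S F y.1) - (0 : F) • S F z.1) +
        ((0 : F) • S F y.1 - y.2 • S F (z.2 • S F x.1 - x.2 • S F z.1))
      simp only [map_sub, map_smul]
      module
    · show (0 : F) = 0 + 0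
      rw [add_zero]

lemma lie_fst (x y : Alg F) : (⁅x, y⁆ : Alg F).1 = y.2 • S F x.1 - x.2 • S F y.1 := rfl
lemma lie_snd (x y : Alg F) : (⁅x, y⁆ : Alg F).2 = 0 := rfl

noncomputable instance : LieAlgebra F (Alg F) where
  lie_smul c x y := by
    refine Prod.ext ?_ ?_
    · show (c * y.2) • S F x.1 - x.2 • S F (c • y.1) = c • (y.2 • S F x.1 - x.2 • S F y.1)
      rw [map_smul]
      module
    · show (0 : F) = c * 0
      rw [mul_zero]

lemma coeff_iter (p : F[X]) (m n : ℕ) : ((S F)^[m] p).coeff n = p.coeff (n + m) := by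
  induction m generalizing n with
  | zero => rfl
  | succ m ih =>
    rw [Function.iterate_succ_apply', coeff_S, ih]
    congr 1
    omega

/-- iterated right multiplication -/
lemma right_iter (x y : Alg F) (hy : y.2 = 0) (m : ℕ) :
    ((fun z : Alg F => ⁅z, x⁆)^[m] y).2 = 0 ∧
    ((fun z : Alg F => ⁅z, x⁆)^[m] y).1 = x.2 ^ m • (S F)^[m] y.1 := by
  induction m with
  | zero => exact ⟨hy, by simp⟩
  | succ m ih =>
    rw [Function.iterate_succ_apply']
    refine ⟨rfl, ?_⟩
    rw [lie_fst, ih.1, ih.2, Function.iterate_succ_apply', map_smul, pow_succ']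
    module

/-- iterated left multiplication -/
lemma left_iter (x y : Alg F) (hy : y.2 = 0) (m : ℕ) :
    ((fun z : Alg F => ⁅x, z⁆)^[m] y).2 = 0 ∧
    ((fun z : Alg F => ⁅x, z⁆)^[m] y).1 = (-x.2) ^ m • (S F)^[m] y.1 := by
  induction m with
  | zero => exact ⟨hy, by simp⟩
  | succ m ih =>
    rw [Function.iterate_succ_apply']
    refine ⟨rfl, ?_⟩
    rw [lie_fst, ih.1, ih.2, Function.iterate_succ_apply', map_smul, pow_succ']
    module

lemma iter_zero (p : F[X]) (m N : ℕ) (hp : ∀ k, N ≤ k → p.coeff k = 0) (hm : N ≤ m) :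
    (S F)^[m] p = 0 := by
  ext n
  rw [coeff_iter, hp _ (by omega), coeff_zero]

lemma engel : IsEngel (Alg F) := by
  intro x y
  set N := (⁅y, x⁆ : Alg F).1.natDegree + 1 with hN
  refine ⟨N + 1, by omega, ?_⟩
  rw [Function.iterate_succ_apply]
  obtain ⟨h1, h2⟩ := right_iter x ⁅y, x⁆ (lie_snd y x) N
  refine Prod.ext ?_ h1
  refine h2.trans ?_
  rw [iter_zero _ N N _ le_rfl, smul_zero]
  · rfl
  · intro k hk
    exact coeff_eq_zero_of_natDegree_lt (by omega)

/-- the finite-dimensional subalgebras `K_N = ⟨1, X, …, X^(N-1), a⟩` -/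
def K (N : ℕ) : LieSubalgebra F (Alg F) where
  carrier := {x | ∀ k, N ≤ k → x.1.coeff k = 0}
  add_mem' := by
    intro x y hx hy k hk
    show (x.1 + y.1).coeff k = 0
    rw [coeff_add, hx k hk, hy k hk, add_zero]
  zero_mem' := by
    intro k _
    show (0 : F[X]).coeff k = 0
    exact coeff_zero k
  smul_mem' := by
    intro c x hx k hk
    show (c • x.1).coeff k = 0
    rw [coeff_smul, hx k hk, smul_zero]
  lie_mem' := by
    intro x y hx hy k hk
    show (y.2 • S F x.1 - x.2 • S F y.1).coeff k = 0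
    rw [coeff_sub, coeff_smul, coeff_smul, coeff_S, coeff_S, hx _ (by omega), hy _ (by omega)]
    simp

lemma mem_K (N : ℕ) (x : Alg F) : x ∈ K (F := F) N ↔ ∀ k, N ≤ k → x.1.coeff k = 0 := Iff.rfl

lemma K_fg (N : ℕ) : Module.Finite F (K (F := F) N) := by
  have h1 : (degreeLT F N).FG := by
    have : Module.Finite F (degreeLT F N) := Module.Finite.equiv (degreeLTEquiv F N).symm
    exact Module.Finite.iff_fg.1 this
  have h2 : ((degreeLT F N).prod (⊤ : Submodule F F)).FG := Submodule.FG.prod h1 Module.Finite.fg_top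
  have h3 : (K (F := F) N).toSubmodule = ((degreeLT F N).prod (⊤ : Submodule F F) :) := by
    ext x
    show (∀ k, N ≤ k → x.1.coeff k = 0) ↔ x.1 ∈ degreeLT F N ∧ x.2 ∈ (⊤ : Submodule F F)
    rw [mem_degreeLT, degree_lt_iff_coeff_zero]
    simp
  have h4 : (K (F := F) N).toSubmodule.FG := by rw [h3]; exact h2
  exact Module.Finite.iff_fg.2 h4

lemma locNilp : LieLocNilp F (Alg F) ⊤ := by
  classical
  intro s _
  -- bound the degrees
  obtain ⟨N, hN⟩ : ∃ N : ℕ, ∀ x ∈ s, ∀ k, N ≤ k → x.1.coeff k = 0 := by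
    refine ⟨s.sup (fun x => x.1.natDegree) + 1, ?_⟩
    intro x hx k hk
    apply coeff_eq_zero_of_natDegree_lt
    have : x.1.natDegree ≤ s.sup (fun x : Alg F => x.1.natDegree) :=
      Finset.le_sup (f := fun x : Alg F => x.1.natDegree) hx
    omega
  set L := LieSubalgebra.lieSpan F (Alg F) (s : Set (Alg F)) with hL
  have hLK : L ≤ K N := by
    rw [hL, LieSubalgebra.lieSpan_le]
    intro x hx
    exact hN x hx
  have hfin : Module.Finite F L := by
    have := K_fg (F := F) N
    have h5 : L.toSubmodule ≤ (K (F := F) N).toSubmodule := hLK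
    exact Submodule.finiteDimensional_of_le h5
  rw [LieAlgebra.isNilpotent_iff_forall (R := F)]
  intro x
  refine ⟨N + 1, ?_⟩
  ext1 y
  have key : ∀ (m : ℕ) (y : L), (((LieAlgebra.ad F L x) ^ m) y : Alg F) =
      (fun z : Alg F => ⁅(x : Alg F), z⁆)^[m] (y : Alg F) := by
    intro m
    induction m with
    | zero => intro y; rfl
    | succ m ih =>
      intro y
      rw [pow_succ, Module.End.mul_apply, ih, Function.iterate_succ_apply]
      rfl
  apply Subtype.ext
  rw [key, Function.iterate_succ_apply]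
  obtain ⟨h1, h2⟩ := left_iter (x : Alg F) ⁅(x : Alg F), (y : Alg F)⁆ (lie_snd _ _) N
  refine Prod.ext ?_ h1
  refine h2.trans ?_
  rw [iter_zero _ N N _ le_rfl, smul_zero]
  · rfl
  · intro k hk
    have hx := hLK x.2
    have hy := hLK y.2
    exact (K (F := F) N).lie_mem hx hy k hk

/-- the element `a` -/
noncomputable def a : Alg F := ((0, 1) : F[X] × F)

lemma not_nilp : ¬ IsNilpotent (R F (Alg F) a) := by
  rintro ⟨k, hk⟩
  have key : ∀ (m : ℕ) (y : Alg F), ((R F (Alg F) a) ^ m) y =
      (fun z : Alg F => ⁅z, (a : Alg F)⁆)^[m] y := by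
    intro m
    induction m with
    | zero => intro y; rfl
    | succ m ih =>
      intro y
      rw [pow_succ, Module.End.mul_apply, ih, Function.iterate_succ_apply]
      rfl
  have h1 := key k (((X : F[X]) ^ k, 0) : F[X] × F)
  rw [hk] at h1
  have h2 := (right_iter (a : Alg F) (((X : F[X]) ^ k, 0) : F[X] × F) rfl k).2
  rw [← h1] at h2
  have h3 : (0 : F[X]).coeff 0 = ((1 : F) ^ k • (S F)^[k] ((X : F[X]) ^ k)).coeff 0 :=
    congrArg (fun q : F[X] => q.coeff 0) h2
  rw [coeff_smul, coeff_iter, coeff_zero, zero_add, coeff_X_pow_self] at h3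
  simp at h3

end Example

/-- **Negative answer to Q1, over every field.**  There is an Engel Lie algebra `A` (even a locally
nilpotent one) and an element `a` with `a ∈ L(A)` and `R_a ∉ L(A*)`. -/
theorem result : ∀ (F : Type) [Field F], ∃ (A : Type) (_ : LieRing A) (_ : LieAlgebra F A),
    IsEngel A ∧ ∃ a : A, a ∈ lieRadical F A ∧
      R F A a ∉ assocRadical F (Module.End F A) (multAlg F A) := by
  intro F _
  refine ⟨Alg F, inferInstance, inferInstance, engel, a, ?_, ?_⟩
  · have h1 : (⊤ : LieIdeal F (Alg F)) ≤ lieRadical F (Alg F) := le_sSup locNilp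
    exact h1 (LieSubmodule.mem_top _)
  · intro h
    exact not_nilp (radical_nil _ _ h)

end Pool.Agent.Results.MP_2c0ed3_al.ShiftExample
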